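import Mathlib

/-!
# Abelian schemes: points in small algebraic subgroups of the fibres
-/

set_option autoImplicit false

open Set TopologicalSpace

namespace Pool.Agent.Q173.AS

universe u v

/-- A class `C` of abelian schemes `A → S`: the points of `A` with the Zariski topology, the
dimension of subsets, the relative dimension `rel V` of the smallest group subscheme (over the
closure of the image of `V` in `S`) containing `V`, the rank of a point (the dimension of the
smallest algebraic subgroup of its fibre which contains it), and products `A × A' → S × S'`. -/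
structure Theory (C : Type u) where
  pts : C → Type v
  top : ∀ S, TopologicalSpace (pts S)
  dim : ∀ {S}, Set (pts S) → ℕ
  rel : ∀ {S}, Set (pts S) → ℕ
  rank : ∀ {S}, pts S → ℕ
  prod : C → C → C
  e : ∀ S S', pts (prod S S') ≃ pts S × pts S'
  /-- an elliptic curve over a point -/
  ell : C

namespace Theory

variable {C : Type u} (T : Theory.{u, v} C)

instance (S : C) : TopologicalSpace (T.pts S) := T.top S

/-- Subvarieties: irreducible closed subsets. -/
def Var {S : C} (V : Set (T.pts S)) : Prop := IsClosed V ∧ IsIrreducible V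

/-- The product of two subsets. -/
def box {S S' : C} (V : Set (T.pts S)) (V' : Set (T.pts S')) : Set (T.pts (T.prod S S')) :=
  T.e S S' ⁻¹' (V ×ˢ V')

/-- The defect of `V`: the relative dimension of the smallest group subscheme containing `V` minus
the dimension of `V` (zero if this is negative). -/
def defect {S : C} (V : Set (T.pts S)) : ℕ := T.rel V - T.dim V

/-- The points of `V` of rank at most `t` are Zariski dense in `V`. -/
def DensePts {S : C} (V : Set (T.pts S)) (t : ℝ) : Prop :=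
  V ⊆ closure {x | x ∈ V ∧ (T.rank x : ℝ) ≤ t}

/-- The known properties. -/
structure IsKnown : Prop where
  left : ∀ (S S' : C) (y : T.pts S'), Continuous fun x => (T.e S S').symm (x, y)
  right : ∀ (S S' : C) (x : T.pts S), Continuous fun y => (T.e S S').symm (x, y)
  fst : ∀ S S' : C, Continuous fun z => (T.e S S' z).1
  snd : ∀ S S' : C, Continuous fun z => (T.e S S' z).2
  dim_box : ∀ {S S' : C} {V : Set (T.pts S)} {V' : Set (T.pts S')}, T.Var V → T.Var V' →
    T.dim (T.box V V') = T.dim V + T.dim V'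
  rel_box : ∀ {S S' : C} {V : Set (T.pts S)} {V' : Set (T.pts S')}, T.Var V → T.Var V' →
    T.rel (T.box V V') ≤ T.rel V + T.rel V'
  rank_box : ∀ {S S' : C} {V : Set (T.pts S)} {V' : Set (T.pts S')}, T.Var V → T.Var V' →
    ∀ x ∈ V, ∀ y ∈ V', T.rank ((T.e S S').symm (x, y)) + T.rel V + T.rel V' ≤
      T.rel (T.box V V') + T.rank x + T.rank y
  ell_var : T.Var (univ : Set (T.pts T.ell))
  ell_dim : T.dim (univ : Set (T.pts T.ell)) = 1
  ell_rel : T.rel (univ : Set (T.pts T.ell)) = 1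
  ell_torsion : T.DensePts (univ : Set (T.pts T.ell)) 0
  ell_box : ∀ {S : C} {V : Set (T.pts S)}, T.Var V →
    T.rel (T.box V (univ : Set (T.pts T.ell))) = T.rel V + 1

/-- Pink's conjecture: for every subvariety `V`, the points of rank less than `rel V - dim V` are not
dense in `V`. -/
def Pink : Prop :=
  ∀ (S : C) (V : Set (T.pts S)), T.Var V → ¬ V ⊆ closure {x | x ∈ V ∧ T.rank x + T.dim V < T.rel V}

/-- The points `x` of `V` with `rank x + u ≤ defect V` are dense in `V`. -/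
def GapPts {S : C} (V : Set (T.pts S)) (u : ℕ) : Prop :=
  V ⊆ closure {x | x ∈ V ∧ T.rank x + T.dim V + u ≤ T.rel V}

variable {T}

section

variable {S S' : C} {V W : Set (T.pts S)} {V' W' : Set (T.pts S')}

lemma mem_box {z : T.pts (T.prod S S')} :
    z ∈ T.box V V' ↔ (T.e S S' z).1 ∈ V ∧ (T.e S S' z).2 ∈ V' := Iff.rfl

lemma symm_mem_box {x : T.pts S} {y : T.pts S'} :
    (T.e S S').symm (x, y) ∈ T.box V V' ↔ x ∈ V ∧ y ∈ V' := by
  rw [mem_box, Equiv.apply_symm_apply]

lemma IsKnown.box_var (hT : T.IsKnown) (hV : T.Var V) (hV' : T.Var V') : T.Var (T.box V V') := by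
  refine ⟨(hV.1.preimage (hT.fst S S')).inter (hV'.1.preimage (hT.snd S S')), ?_, ?_⟩
  · obtain ⟨x, hx⟩ := hV.2.1
    obtain ⟨y, hy⟩ := hV'.2.1
    exact ⟨(T.e S S').symm (x, y), symm_mem_box.2 ⟨hx, hy⟩⟩
  · intro u v hu hv ⟨z, hz, hzu⟩ ⟨z', hz', hzv⟩
    have h1 : (T.e S S').symm ((T.e S S' z).1, (T.e S S' z).2) = z := by simp
    have h2 : (T.e S S').symm ((T.e S S' z').1, (T.e S S' z').2) = z' := by simp
    obtain ⟨y, hy, hyu, hyv⟩ := hV'.2.2 _ _ (hu.preimage (hT.right S S' (T.e S S' z).1))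
      (hv.preimage (hT.right S S' (T.e S S' z').1))
      ⟨(T.e S S' z).2, hz.2, by rw [mem_preimage, h1]; exact hzu⟩
      ⟨(T.e S S' z').2, hz'.2, by rw [mem_preimage, h2]; exact hzv⟩
    obtain ⟨x, hx, hxu, hxv⟩ := hV.2.2 _ _ (hu.preimage (hT.left S S' y))
      (hv.preimage (hT.left S S' y)) ⟨(T.e S S' z).1, hz.1, hyu⟩ ⟨(T.e S S' z').1, hz'.1, hyv⟩
    exact ⟨(T.e S S').symm (x, y), symm_mem_box.2 ⟨hx, hy⟩, hxu, hxv⟩

lemma IsKnown.box_closure (hT : T.IsKnown) {A : Set (T.pts S)} {A' : Set (T.pts S')}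
    (h : V ⊆ closure A) (h' : V' ⊆ closure A') : T.box V V' ⊆ closure (T.box A A') := by
  intro z hz
  set K := closure (T.box A A') with hK
  have hKc : IsClosed K := isClosed_closure
  have h1 : ∀ a ∈ A, ∀ y ∈ V', (T.e S S').symm (a, y) ∈ K := by
    intro a ha y hy
    have h2 : closure A' ⊆ (fun y => (T.e S S').symm (a, y)) ⁻¹' K :=
      closure_minimal (fun y hy => subset_closure (symm_mem_box.2 ⟨ha, hy⟩))
        (hKc.preimage (hT.right S S' a))
    exact h2 (h' hy)
  have h3 : closure A ⊆ (fun x => (T.e S S').symm (x, (T.e S S' z).2)) ⁻¹' K :=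
    closure_minimal (fun a ha => h1 a ha _ hz.2) (hKc.preimage (hT.left S S' _))
  have h4 := h3 (h hz.1)
  rw [mem_preimage] at h4
  simpa using h4

/-- The gap is additive. -/
lemma IsKnown.gapPts_box (hT : T.IsKnown) (hV : T.Var V) (hV' : T.Var V') {u u' : ℕ}
    (h : T.GapPts V u) (h' : T.GapPts V' u') : T.GapPts (T.box V V') (u + u') := by
  refine (hT.box_closure h h').trans (closure_mono ?_)
  intro z hz
  obtain ⟨⟨hx, hxu⟩, hy, hyu⟩ := hz
  set x := (T.e S S' z).1 with hxdef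
  set y := (T.e S S' z).2 with hydef
  have hzxy : z = (T.e S S').symm (x, y) := by simp [hxdef, hydef]
  refine ⟨⟨hx, hy⟩, ?_⟩
  have h1 := hT.rank_box hV hV' x hx y hy
  rw [← hzxy] at h1
  have h2 := hT.dim_box hV hV'
  omega

lemma gapPts_le (hV : T.Var V) {u : ℕ} (h : T.GapPts V u) : T.dim V + u ≤ T.rel V := by
  obtain ⟨x, hx⟩ := hV.2.1
  obtain ⟨y, hy⟩ := closure_nonempty_iff.1 ⟨x, h hx⟩
  have := hy.2
  omega

lemma IsKnown.gapPts_ell (hT : T.IsKnown) : T.GapPts (univ : Set (T.pts T.ell)) 0 := by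
  refine hT.ell_torsion.trans (closure_mono ?_)
  rintro x ⟨hx, hx0⟩
  refine ⟨hx, ?_⟩
  have h1 : (T.rank x : ℝ) ≤ 0 := hx0
  have h2 : T.rank x = 0 := by
    have : T.rank x ≤ 0 := by exact_mod_cast h1
    omega
  rw [hT.ell_dim, hT.ell_rel, h2]

/-- Powers. -/
lemma IsKnown.powerPts (hT : T.IsKnown) {S : C} {V₀ : Set (T.pts S)} (hV : T.Var V₀) {u : ℕ}
    (h : T.GapPts V₀ u) (m : ℕ) :
    ∃ (S' : C) (V : Set (T.pts S')), T.Var V ∧
      T.GapPts V ((m + 1) * u) ∧ T.defect V ≤ (m + 1) * T.defect V₀ := by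
  induction m with
  | zero => exact ⟨S, V₀, hV, by simpa using h, by simp⟩
  | succ m ih =>
    obtain ⟨S', V, hV', hG, hd⟩ := ih
    refine ⟨T.prod S' S, T.box V V₀, hT.box_var hV' hV, ?_, ?_⟩
    · have := hT.gapPts_box hV' hV hG h
      rwa [← Nat.succ_mul] at this
    · have h1 := hT.rel_box hV' hV
      have h2 := hT.dim_box hV' hV
      have h3 := gapPts_le hV' hG
      have h4 := gapPts_le hV h
      have h5 : (m + 1 + 1) * T.defect V₀ = (m + 1) * T.defect V₀ + T.defect V₀ := by ring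
      have h6 : T.defect (T.box V V₀) ≤ T.defect V + T.defect V₀ := by
        unfold defect
        omega
      omega

/-- Stretching. -/
lemma IsKnown.stretchPts (hT : T.IsKnown) {S : C} {V : Set (T.pts S)} (hV : T.Var V) {u : ℕ}
    (h : T.GapPts V u) (m : ℕ) : ∃ (S' : C) (V' : Set (T.pts S')), T.Var V' ∧
      T.GapPts V' u ∧ T.defect V' = T.defect V ∧ m ≤ T.dim V' := by
  induction m with
  | zero => exact ⟨S, V, hV, h, rfl, Nat.zero_le _⟩
  | succ m ih =>
    obtain ⟨S', V', hV', hG, hd, hm⟩ := ih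
    refine ⟨T.prod S' T.ell, T.box V' univ, hT.box_var hV' hT.ell_var, ?_, ?_, ?_⟩
    · have := hT.gapPts_box hV' hT.ell_var hG hT.gapPts_ell
      rwa [Nat.add_zero] at this
    · have h1 := hT.ell_box hV'
      have h2 := hT.dim_box hV' hT.ell_var
      rw [hT.ell_dim] at h2
      unfold defect at hd ⊢
      omega
    · rw [hT.dim_box hV' hT.ell_var, hT.ell_dim]
      omega

lemma GapPts.dense {S : C} {V : Set (T.pts S)} {u : ℕ} (h : T.GapPts V u) {t : ℝ}
    (ht : (T.defect V : ℝ) - u ≤ t) : T.DensePts V t := by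
  refine h.trans (closure_mono ?_)
  rintro x ⟨hx, hxu⟩
  have h1 : T.rank x + u ≤ T.defect V := by
    unfold defect
    omega
  have h2 : ((T.rank x + u : ℕ) : ℝ) ≤ T.defect V := by exact_mod_cast h1
  push_cast at h2
  exact ⟨hx, by linarith⟩

/-- Amplification. -/
theorem IsKnown.amplifyPts (hT : T.IsKnown) {θ : ℝ} {S : C}
    {V : Set (T.pts S)} (hV : T.Var V) (hd : 1 ≤ T.defect V) (hθ0 : 0 ≤ θ)
    (hθ : T.DensePts V (θ * T.defect V)) (hθ1 : θ < 1) (D : ℕ) (f : ℕ → ℕ) :
    ∃ (S' : C) (V' : Set (T.pts S')), T.Var V' ∧ D ≤ T.defect V' ∧ f (T.defect V') ≤ T.dim V' ∧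
      T.DensePts V' (θ * T.defect V') := by
  set e : ℕ := T.defect V with he
  have he' : T.rel V = e + T.dim V := by
    have : T.defect V = T.rel V - T.dim V := rfl
    omega
  have he0 : (0 : ℝ) < e := by exact_mod_cast hd
  set a : ℕ := ⌊θ * e⌋₊ with ha
  have ha1 : (a : ℝ) ≤ θ * e := Nat.floor_le (by positivity)
  have hae : a < e := by
    have : (a : ℝ) < e := by nlinarith
    exact_mod_cast this
  obtain ⟨u, hu⟩ : ∃ u : ℕ, a + u = e := ⟨e - a, by omega⟩
  have hu1 : 1 ≤ u := by omega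
  have hG : T.GapPts V u := by
    refine hθ.trans (closure_mono ?_)
    rintro x ⟨hx, hxθ⟩
    have h1 : T.rank x ≤ a := Nat.le_floor hxθ
    exact ⟨hx, by omega⟩
  obtain ⟨S₁, V₁, hV₁, hG₁, hd₁⟩ := hT.powerPts hV hG D
  have h7' := gapPts_le hV₁ hG₁
  have h7 : (D + 1) * u ≤ T.defect V₁ := by
    unfold defect
    omega
  obtain ⟨S₂, V₂, hV₂, hG₂, hd₂, hdim₂⟩ := hT.stretchPts hV₁ hG₁ (f (T.defect V₁))
  refine ⟨S₂, V₂, hV₂, ?_, by rw [hd₂]; exact hdim₂, hG₂.dense ?_⟩
  · rw [hd₂]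
    nlinarith
  · rw [hd₂]
    have h8 : (T.defect V₁ : ℝ) ≤ ((D + 1 : ℕ) : ℝ) * e := by exact_mod_cast hd₁
    have h9 : (1 - θ) * (e : ℝ) ≤ u := by
      have : (a : ℝ) + u = e := by exact_mod_cast hu
      nlinarith
    have hD : (0 : ℝ) ≤ ((D + 1 : ℕ) : ℝ) := Nat.cast_nonneg _
    have h10 : (1 - θ) * (T.defect V₁ : ℝ) ≤ ((D + 1 : ℕ) : ℝ) * u := by
      calc (1 - θ) * (T.defect V₁ : ℝ) ≤ (1 - θ) * (((D + 1 : ℕ) : ℝ) * e) :=
            mul_le_mul_of_nonneg_left h8 (by linarith)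
        _ = ((D + 1 : ℕ) : ℝ) * ((1 - θ) * e) := by ring
        _ ≤ ((D + 1 : ℕ) : ℝ) * u := mul_le_mul_of_nonneg_left h9 hD
    push_cast at h10 ⊢
    linarith

/-- The conjecture in terms of ratios. -/
theorem pink_iff : T.Pink ↔ ∀ θ : ℝ, 0 ≤ θ → θ < 1 → ∀ (S : C) (V : Set (T.pts S)), T.Var V →
    1 ≤ T.defect V → ¬ T.DensePts V (θ * T.defect V) := by
  constructor
  · intro h θ hθ0 hθ1 S V hV hd hD
    refine h S V hV (hD.trans (closure_mono ?_))
    rintro x ⟨hx, hxθ⟩
    have he0 : (0 : ℝ) < T.defect V := by exact_mod_cast hd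
    have h1 : (T.rank x : ℝ) < T.defect V := by
      have : (T.rank x : ℝ) ≤ θ * T.defect V := hxθ
      nlinarith
    have h2 : T.rank x < T.defect V := by exact_mod_cast h1
    refine ⟨hx, ?_⟩
    unfold defect at h2
    omega
  · intro h S V hV hD
    obtain ⟨x, hx⟩ := hV.2.1
    obtain ⟨y, hy⟩ := closure_nonempty_iff.1 ⟨x, hD hx⟩
    have hy2 := hy.2
    have hd : 1 ≤ T.defect V := by
      unfold defect
      omega
    have he0 : (0 : ℝ) < T.defect V := by exact_mod_cast hd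
    refine h (((T.defect V : ℝ) - 1) / T.defect V) ?_ ?_ S V hV hd ?_
    · have : (1 : ℝ) ≤ T.defect V := by exact_mod_cast hd
      apply div_nonneg (by linarith) he0.le
    · rw [div_lt_one he0]
      linarith
    · rw [div_mul_cancel₀ _ he0.ne']
      refine hD.trans (closure_mono ?_)
      rintro x ⟨hx, hxu⟩
      refine ⟨hx, ?_⟩
      have h1 : T.rank x + 1 ≤ T.defect V := by
        unfold defect
        omega
      have h2 : ((T.rank x + 1 : ℕ) : ℝ) ≤ T.defect V := by exact_mod_cast h1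
      push_cast at h2
      linarith

end

end Theory

end Pool.Agent.Q173.AS
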